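import Pool.Agent.helper16.EXC.Spec3

set_option autoImplicit false

open Finset

namespace Pool.Agent.EXC

theorem ZM2_fin {n : ℕ} (C : Matrix (Fin n) (Fin n) ℤ) [IsC C] (F : Type) [Field F] [Finite F] : Finite (EG C F) := by
  refine Finite.of_injective (fun g : EG C F => ((g : Lm C F ≃ₗ[F] Lm C F) : Lm C F → Lm C F)) ?_
  intro g h hgh
  exact Subtype.ext (LinearEquiv.ext fun v => congrFun hgh v)

theorem ZM2_three {F : Type} [Field F] [Finite F] (h : ¬ 3 ∣ Nat.card F) : (3 : F) ≠ 0 := by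
  intro h3
  apply h
  have h1 : addOrderOf (1 : F) = 3 := by
    haveI : Fact (Nat.Prime 3) := ⟨Nat.prime_three⟩
    apply addOrderOf_eq_prime
    · rw [nsmul_eq_mul, mul_one]
      exact_mod_cast h3
    · exact one_ne_zero
  rw [← h1]
  exact addOrderOf_dvd_natCard (1 : F)

theorem ZM2_flat {G : Type} [Monoid G] {ι : Type} (f : ι → G) (p q : ι) (m : ℕ) :
    (((List.replicate m [p, q]).flatten).map f).prod = (f p * f q) ^ m := by
  induction m with
  | zero => simp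
  | succ k ih =>
    rw [List.replicate_succ, List.flatten_cons, List.map_append, List.prod_append, ih, pow_succ']
    simp

theorem ZM2_key (hZW2 : ZW2_stmt) (hGRP : GRP_stmt) (hFIX : FIX_stmt) (hEXF : EXF_stmt) (hNBR : NBR_stmt)
    (n : ℕ) (C : Matrix (Fin n) (Fin n) ℤ) [IsC C] (F : Type) [Field F] [Finite F] (j0 : Fin n) (θ : Fin n → ℤ)
    (δ : Fin 5 → Fin n) (hE : IsE C j0 θ δ) (x : MulAut (EG C F)) (σ : F ≃+* F) (a b : Lm C F) (c₀ : F)
    (ha : Ex C a) (hb : Ex C b) (hT : Tp C θ a b (-2)) (hSL : SL C x σ a b c₀) (u : F)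
    (hM : ∀ m : ℕ, (!![1, 0; fm C a b * (c₀ * σ u), 1] * !![1, u; 0, 1] : Matrix (Fin 2) (Fin 2) F) ^ m = 1 → 3 ∣ m) :
    2 ∈ Pool.Agent.GS.CSet 3 x := by
  haveI := ZM2_fin C F
  obtain ⟨-, -, hX, -⟩ := hEXF n C F (hNBR n C j0 θ δ hE).1
  have hch : ∀ p : Bool × F, ∃ h : EG C F, IsX C (if p.1 then b else a) p.2 (h : Lm C F ≃ₗ[F] Lm C F) := by
    intro p
    have hp : Ex C (if p.1 then b else a) := by
      split_ifs
      · exact hb
      · exact ha
    obtain ⟨h, h1, h2⟩ := (hX _ hp).2.2.2.2.1 p.2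
    exact ⟨⟨h, h1⟩, h2⟩
  choose h hh using hch
  set t : EG C F := h (false, u) with ht
  have ht1 : IsX C a u (t : Lm C F ≃ₗ[F] Lm C F) := by
    have := hh (false, u)
    simpa using this
  have hxt : h (true, c₀ * σ u) = x t := by
    have h1 := hh (true, c₀ * σ u)
    have h2 := hSL u t ht1
    refine Subtype.ext (LinearEquiv.ext fun v => ?_)
    have h3 := h1 v
    simp only [if_true] at h3
    rw [h3]
    exact (h2 v).symm
  have hti : h (false, -u) = t⁻¹ := by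
    rw [eq_inv_iff_mul_eq_one]
    have h1 := hh (false, -u)
    simp only [Bool.false_eq_true, if_false] at h1
    have h2 := (hX a ha).2.2.2.2.2.2.2.2 (-u) u _ _ h1 ht1
    rw [neg_add_cancel] at h2
    refine Subtype.ext (LinearEquiv.ext fun v => ?_)
    have h3 := h2 v
    rw [xe] at h3
    simpa using h3
  have h21 : 2 = 2 * 1 := rfl
  rw [h21]
  refine hGRP (EG C F) x t 3 1 (fun _ => 1) le_rfl ?_
  intro m hm
  have hz : (List.ofFn fun i : Fin 1 => (1 : EG C F) * (x t * t⁻¹) * (1 : EG C F)⁻¹).prod = x t * t⁻¹ := by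
    simp
  rw [hz, ← map_pow] at hm
  have hc : ∀ g : EG C F, (x t * t⁻¹) ^ m * g = g * (x t * t⁻¹) ^ m := by
    intro g
    have h1 : MulAut.conj ((x t * t⁻¹) ^ m) g = g := by rw [hm]; rfl
    rw [MulAut.conj_apply] at h1
    exact mul_inv_eq_iff_eq_mul.1 h1
  have h1 := (hFIX n C F j0 θ δ hE).2 _ hc
  have h2 := hZW2 n C F j0 θ δ hE a b hT h hh ((List.replicate m [(true, c₀ * σ u), (false, -u)]).flatten)
    (by rw [ZM2_flat, hxt, hti]; exact h1)
  rw [ZM2_flat] at h2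
  apply hM
  simpa using h2

theorem ZM2 (hZW2 : ZW2_stmt) (hZMT : ZMT_stmt) (hZQR : ZQR_stmt) (hZAL : ZAL_stmt) (hZNR : ZNR_stmt) (hZSC : ZSC_stmt) (hZSL : ZSL_stmt) (hZKS : ZKS_stmt) (hGRP : GRP_stmt) (hFIX : FIX_stmt) (hEXF : EXF_stmt) (hTPF : TPF_stmt) (hNBR : NBR_stmt) : ZM2_stmt := by
  intro n C _ F _ _ j0 θ δ hE h3 x hRA hpr a b ha hb hIm hT
  have h3' : (3 : F) ≠ 0 := ZM2_three h3
  have hnb := (hNBR n C j0 θ δ hE).1
  have hκ : fm C a b ≠ 0 := ((hTPF n C F θ hE.th2 hnb a b (-2) hT).2.2.2.2.2.1).2 rfl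
  obtain ⟨-, -, hX, -⟩ := hEXF n C F hnb
  obtain ⟨σ, hσ⟩ := hZSC n C F j0 θ δ hE x hRA
  obtain ⟨c₀, hc₀, hSL⟩ := hσ a b ha hb hIm
  have hit := hZSL n C F j0 θ δ hE x hRA σ hσ (orderOf x) (pow_orderOf_eq_one x)
  set c : F := fm C a b * c₀ with hc
  have hc0 : c ≠ 0 := mul_ne_zero hκ hc₀
  have hdet : ∀ u : F, (!![1, 0; fm C a b * (c₀ * σ u), 1] * !![1, u; 0, 1] : Matrix (Fin 2) (Fin 2) F).det = 1 := by
    intro u
    rw [Matrix.det_mul, Matrix.det_fin_two_of, Matrix.det_fin_two_of]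
    ring
  have htr : ∀ u : F, (!![1, 0; fm C a b * (c₀ * σ u), 1] * !![1, u; 0, 1] : Matrix (Fin 2) (Fin 2) F).trace =
      2 + c * (u * σ u) := by
    intro u
    rw [Matrix.trace_fin_two, Matrix.mul_apply, Matrix.mul_apply, Fin.sum_univ_two, Fin.sum_univ_two]
    simp
    rw [hc]
    ring
  obtain ⟨v, hv0, hv⟩ := hZQR F h3 c hc0
  have main : ∀ u : F, u * σ u = v ^ 2 → 2 ∈ Pool.Agent.GS.CSet 3 x := by
    intro u hu
    refine ZM2_key hZW2 hGRP hFIX hEXF hNBR n C F j0 θ δ hE x σ a b c₀ ha hb hT hSL u ?_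
    exact hv _ (hdet u) (by rw [htr u, hu])
  rcases hpr.eq_two_or_odd' with h2 | hodd
  · by_cases hs : ∀ u, σ u = u
    · exact main v (by rw [hs v, sq])
    · push Not at hs
      obtain ⟨w, hw⟩ := hs
      rw [h2] at hit
      have hx2 : ∀ g : EG C F, x (x g) = g := by
        intro g
        have h5 : x ^ 2 = 1 := by rw [← h2]; exact pow_orderOf_eq_one x
        have h6 : (x ^ 2) g = g := by rw [h5]; rfl
        rw [sq] at h6
        exact h6
      have hIm' : Im C x b a := by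
        intro h
        have h7 := hIm (x h)
        rw [hx2 h] at h7
        exact h7.symm
      obtain ⟨d, hd, hSL'⟩ := hσ b a hb ha hIm'
      obtain ⟨h, hh1, hh2⟩ := (hX a ha).2.2.2.2.1 1
      have h8 := hSL 1 ⟨h, hh1⟩ hh2
      rw [map_one, mul_one] at h8
      have h9 := hSL' c₀ (x ⟨h, hh1⟩) h8
      rw [hx2] at h9
      have h10 : d * σ c₀ = 1 := ((hX a ha).2.2.2.2.2.2.1 _ _ _ h9 hh2)
      have h11 := hZKS n C F j0 θ δ hE x σ a b c₀ d ha hb hκ hc₀ hd hSL hSL'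
      have h12 : σ c = c := by
        rw [hc, map_mul, h11]
        linear_combination (fm C a b * c₀) * h10
      obtain ⟨u, hu0, hu⟩ := hZNR F σ (fun u => hit u) ⟨w, hw⟩ (-c⁻¹) (neg_ne_zero.2 (inv_ne_zero hc0))
        (by rw [map_neg, map_inv₀, h12])
      refine ZM2_key hZW2 hGRP hFIX hEXF hNBR n C F j0 θ δ hE x σ a b c₀ ha hb hT hSL u ?_
      refine (hZMT F).2 h3' _ (hdet u) ?_
      rw [htr u, hu, mul_neg, mul_inv_cancel₀ hc0]
      ring
  · obtain ⟨u, -, hu⟩ := hZAL F σ (orderOf x) hodd hit v hv0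
    exact main u hu

end Pool.Agent.EXC
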